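import Pool.Agent.Helper743.KTFin

set_option autoImplicit false

/-! Problem MP_95c08c_lc, question Q1 (the negated form): there are a K-trivial set `A` and a
set `B` below the halting problem, relative to which the halting problem is K-trivial, such
that `B` does not compute `A`. -/

namespace Pool.Agent.Results.MP_95c08c_lc.AlmostCompleteAvoids

open Pool.Agent.Helper743 Pool.Agent.Helper743.KT Nat.Partrec

/-- `A` is Turing reducible to `B`, for sets given by their characteristic functions. -/
def Below (A B : ℕ → Bool) : Prop :=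
  TuringReducible (fun n => Part.some (A n).toNat : ℕ →. ℕ)
    (fun n => Part.some (B n).toNat : ℕ →. ℕ)

/-- `f` is upper semicomputable relative to the set `B`: the set of the pairs `(n, k)` with
`f n ≤ k` is the domain of a function that is partial computable relative to `B`. -/
def UpperSemi (B : ℕ → Bool) (f : ℕ → ℕ) : Prop :=
  ∃ φ : ℕ →. ℕ, TuringReducible φ (fun n => Part.some (B n).toNat : ℕ →. ℕ) ∧
    ∀ n k : ℕ, (φ (Nat.pair n k)).Dom ↔ f n ≤ k

/-- All finite sums of the numbers `2 ^ (- f n)` are at most `1`. -/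
def KraftSum (f : ℕ → ℕ) : Prop := ∀ s : Finset ℕ, ∑ n ∈ s, (1 / 2 : ℝ) ^ f n ≤ 1

/-- `κ` is (a version of) prefix-free Kolmogorov complexity relative to `B`, on natural numbers:
the least function up to an additive constant among the functions which are upper semicomputable
relative to `B` and satisfy the Kraft inequality. -/
def IsComplexity (B : ℕ → Bool) (κ : ℕ → ℕ) : Prop :=
  UpperSemi B κ ∧ KraftSum κ ∧
    ∀ f : ℕ → ℕ, UpperSemi B f → KraftSum f → ∃ c : ℕ, ∀ n, κ n ≤ f n + c

/-- `X` is K-trivial relative to `B`: the complexity relative to `B` of the string of the first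
`n` bits of `X` exceeds the complexity relative to `B` of `n` by at most a constant. Strings
are coded by natural numbers in the standard way. -/
def KTrivialRel (X B : ℕ → Bool) : Prop :=
  ∃ κ : ℕ → ℕ, IsComplexity B κ ∧
    ∃ c : ℕ, ∀ n : ℕ, κ (Encodable.encode (List.ofFn (fun i : Fin n => X i))) ≤ κ n + c

/-- `X` is K-trivial: it is K-trivial relative to the empty set. -/
def KTrivial (X : ℕ → Bool) : Prop := KTrivialRel X (fun _ => false)

/-- The halting problem. -/
noncomputable def haltingSet (n : ℕ) : Bool :=
  open Classical in decide (Code.eval (Denumerable.ofNat Code n) n).Dom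

/-- `B` is almost complete: the halting problem is K-trivial relative to `B`. -/
def AlmostComplete (B : ℕ → Bool) : Prop := KTrivialRel haltingSet B

/-- `X` is computably enumerable. -/
def CE (X : ℕ → Bool) : Prop := REPred (fun n => X n = true)

/-- There are a computably enumerable K-trivial set `A` and an almost complete set `B` with
`B ≤_T 0'` such that `A` is not Turing reducible to `B`. -/
theorem result : ∃ A B : ℕ → Bool, CE A ∧ KTrivial A ∧ Below B haltingSet ∧ AlmostComplete B ∧
    ¬ Below A B := by
  classical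
  have hUp : ∀ (B : ℕ → Bool) (f : ℕ → ℕ), UpperSemi B f ↔ UpS (fun n => (B n).toNat) f := by
    intro B f
    constructor
    · rintro ⟨φ, h1, h2⟩
      exact ⟨φ, RecursiveIn.iff_nat.1 h1, h2⟩
    · rintro ⟨φ, h1, h2⟩
      exact ⟨φ, RecursiveIn.iff_nat.2 h1, h2⟩
  have hBel : ∀ A B : ℕ → Bool, Below A B ↔ TR (fun n => (A n).toNat) (fun n => (B n).toNat) :=
    fun A B => TR_iff.symm
  have hCx : ∀ (B : ℕ → Bool) (κ : ℕ → ℕ), Opt (fun n => (B n).toNat) κ → IsComplexity B κ := by
    rintro B κ ⟨h1, h2, h3⟩
    refine ⟨(hUp B κ).2 h1, h2, fun f hf hk => h3 f ((hUp B f).1 hf) hk⟩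
  have hK0 : (fun n => (haltingSet n).toNat) = K0 := by
    funext n
    unfold haltingSet K0
    by_cases h : (Code.eval (Denumerable.ofNat Code n) n).Dom <;> simp [h]
  -- the K-trivial set
  let A : ℕ → Bool := fun n => decide (inA n)
  have hAchi : (fun n => (A n).toNat) = chiA := by
    funext n
    simp only [A]
    unfold chiA chi
    by_cases h : inA n <;> simp [h]
  have hXA : ∀ n, XA n = List.ofFn (fun i : Fin n => A i) := by
    intro n
    unfold XA
    apply List.ext_getElem
    · simp
    · intro i hi1 hi2
      rw [List.getElem_ofFn]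
      simp [A]
  have hce : CE A := by
    refine inA_re.of_eq ?_
    intro n
    simp [A]
  -- an index of the set
  have hce2 : Partrec (fun n : ℕ => Part.assert (inA n) fun _ => Part.some ()) := inA_re
  have hce3 : Partrec (fun n : ℕ => (Part.assert (inA n) fun _ => Part.some ()).map
      (fun _ => (0 : ℕ))) := hce2.map ((Computable.const 0).to₂)
  obtain ⟨e, he⟩ := Code.exists_code.1 (Partrec.nat_iff.1 hce3)
  set a := Encodable.encode e with ha
  have hWA : AC.WA a = chiA := by
    funext n
    unfold AC.WA K chiA chi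
    rw [Nat.unpair_pair, ha, Denumerable.ofNat_encode, he]
    by_cases h : inA n
    · have h1 : ((Part.assert (inA n) fun _ => Part.some ()).map (fun _ => (0 : ℕ))).Dom := by
        simp [Part.assert, h]
      simp only [h1, if_true, h]
    · have h1 : ¬ ((Part.assert (inA n) fun _ => Part.some ()).map (fun _ => (0 : ℕ))).Dom := by
        simp [Part.assert, h]
      simp only [h1, if_false, h]
  have hnc : ¬ Computable (AC.WA a) := by
    rw [hWA]
    exact not_computable
  refine ⟨A, gr (AC.GG a), hce, ?_, ?_, ?_, ?_⟩
  · -- K-triviality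
    have h0 : Opt (fun n => ((fun _ => false : ℕ → Bool) n).toNat) (KG (fun m => m)) :=
      Opt_of_TR (TR_of_computable Computable.id) (TR_of_computable (Computable.const 0))
        (Opt_KG _)
    refine ⟨KG (fun m => m), hCx _ _ h0, ?_⟩
    obtain ⟨c, hc⟩ := inA_triv
    refine ⟨c, fun n => ?_⟩
    rw [← hXA n]
    exact hc n
  · rw [hBel, hK0]
    exact TR.trans (gr_TR _) (TR.trans (AC.limC_GG a).TR_K K_TR_K0)
  · refine ⟨KG (AC.GG a), hCx _ _ (Opt_of_TR (TR_gr _) (gr_TR _) (Opt_KG _)), ?_⟩
    obtain ⟨c, hc⟩ := halting_triv a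
    refine ⟨c, fun n => ?_⟩
    have h4 : AC.kstr n = List.ofFn (fun i : Fin n => haltingSet i) := kstr_eq n
    rw [← h4]
    exact hc n
  · intro h
    apply AC.avoids a hnc
    rw [hWA, ← hAchi]
    exact TR.trans ((hBel _ _).1 h) (gr_TR _)

end Pool.Agent.Results.MP_95c08c_lc.AlmostCompleteAvoids
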